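import Pool.Agent.H85.PN.U

/-!
# PNF, row RPL: real places in extensions of odd degree
-/

set_option autoImplicit false

namespace Pool.PRN

open NumberField

namespace RplAux

/-- a real embedding extends to a real embedding, if the degree is odd -/
lemma ext_real {K L : Type} [Field K] [NumberField K] [Field L] [NumberField L] [Algebra K L]
    (hodd : Odd (Module.finrank K L)) (φ : K →+* ℂ) (hφ : ComplexEmbedding.IsReal φ) :
    ∃ σ : L →+* ℂ, ComplexEmbedding.IsReal σ ∧ σ.comp (algebraMap K L) = φ := by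
  classical
  let _ : Algebra K ℂ := φ.toAlgebra
  have hconj : ∀ x : K, (starRingEnd ℂ) (algebraMap K ℂ x) = algebraMap K ℂ x := by
    intro x
    exact RingHom.congr_fun (ComplexEmbedding.isReal_iff.mp hφ) x
  have : FiniteDimensional K L := Module.Finite.of_restrictScalars_finite ℚ K L
  have hcard : Fintype.card (L →ₐ[K] ℂ) = Module.finrank K L := AlgHom.card K L ℂ
  let c : (L →ₐ[K] ℂ) → (L →ₐ[K] ℂ) := fun σ =>
    { toRingHom := (starRingEnd ℂ).comp (σ : L →+* ℂ)
      commutes' := fun x => by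
        have h1 : (σ : L →+* ℂ) (algebraMap K L x) = algebraMap K ℂ x := σ.commutes x
        change (starRingEnd ℂ) ((σ : L →+* ℂ) (algebraMap K L x)) = algebraMap K ℂ x
        rw [h1, hconj] }
  have hc : ∀ σ x, c σ x = (starRingEnd ℂ) (σ x) := fun σ x => rfl
  have hinv : ∀ σ, c (c σ) = σ := by
    intro σ
    ext x
    rw [hc, hc]
    exact star_star _
  let e : Equiv.Perm (L →ₐ[K] ℂ) := ⟨c, c, hinv, hinv⟩
  have he : e ^ 2 ^ 1 = 1 := by
    ext1 σ
    rw [pow_one, pow_two]
    exact hinv σ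
  have : Fact (Nat.Prime 2) := ⟨Nat.prime_two⟩
  obtain ⟨σ, hσ⟩ := Equiv.Perm.exists_fixed_point_of_prime (p := 2) (n := 1)
    (by rw [hcard]; exact hodd.not_two_dvd_nat) he
  refine ⟨(σ : L →+* ℂ), ?_, ?_⟩
  · rw [ComplexEmbedding.isReal_iff]
    ext x
    exact congrArg (fun τ : L →ₐ[K] ℂ => τ x) hσ
  · ext x
    exact σ.commutes x

end RplAux

open RplAux in
/-- **RPL.** -/
theorem rpl : RPLStmt := by
  classical
  intro K L _ _ _ _ _ hodd
  rw [← InfinitePlace.card_real_embeddings, ← InfinitePlace.card_real_embeddings]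
  have h : ∀ φ : { φ : K →+* ℂ // ComplexEmbedding.IsReal φ },
      ∃ σ : { φ : L →+* ℂ // ComplexEmbedding.IsReal φ },
        (σ : L →+* ℂ).comp (algebraMap K L) = φ := by
    rintro ⟨φ, hφ⟩
    obtain ⟨σ, h1, h2⟩ := ext_real (L := L) hodd φ hφ
    exact ⟨⟨σ, h1⟩, h2⟩
  choose F hF using h
  refine Fintype.card_le_of_injective F ?_
  intro φ ψ hφψ
  apply Subtype.ext
  rw [← hF φ, ← hF ψ, hφψ]

end Pool.PRN
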