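import Pool.Agent.H85.PN.U

/-!
# PNF, row UNK: the units modulo squares
-/

set_option autoImplicit false

namespace Pool.PRN

open NumberField NumberField.Units

namespace UnkAux

variable (K : Type) [Field K] [NumberField K]

/-- the product of powers of the fundamental units -/
noncomputable def gU : Multiplicative (Fin (rank K) → ℤ) →* (𝓞 K)ˣ where
  toFun e := ∏ i, fundSystem K i ^ (e.toAdd i)
  map_one' := by
    simp only [toAdd_one, Pi.zero_apply, zpow_zero, Finset.prod_const_one]
  map_mul' e f := by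
    rw [← Finset.prod_mul_distrib]
    simp only [toAdd_mul, Pi.add_apply, zpow_add]

/-- the decomposition of the units -/
noncomputable def fU : torsion K × Multiplicative (Fin (rank K) → ℤ) →* (𝓞 K)ˣ :=
  MonoidHom.coprod (torsion K).subtype (gU K)

lemma fU_apply (z : torsion K × Multiplicative (Fin (rank K) → ℤ)) :
    fU K z = z.1 * ∏ i, fundSystem K i ^ (z.2.toAdd i) := rfl

lemma fU_bij : Function.Bijective (fU K) := by
  constructor
  · intro z w h
    obtain ⟨y, -, hy⟩ := exist_unique_eq_mul_prod K (fU K z)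
    have h1 := hy (z.1, z.2.toAdd) (fU_apply K z)
    have h2 := hy (w.1, w.2.toAdd) (by rw [h]; exact fU_apply K w)
    have h3 := h1.trans h2.symm
    rw [Prod.mk.injEq] at h3
    exact Prod.ext h3.1 (Multiplicative.toAdd.injective h3.2)
  · intro x
    obtain ⟨y, hy, -⟩ := exist_unique_eq_mul_prod K x
    exact ⟨(y.1, Multiplicative.ofAdd y.2), hy.symm⟩

/-- the units as a product -/
noncomputable def eU : torsion K × Multiplicative (Fin (rank K) → ℤ) ≃* (𝓞 K)ˣ :=
  MulEquiv.ofBijective (fU K) (fU_bij K)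

/-- reduction modulo two -/
def rd (r : ℕ) : Multiplicative (Fin r → ℤ) →* Multiplicative (Fin r → ZMod 2) where
  toFun e := Multiplicative.ofAdd fun i => ((e.toAdd i : ℤ) : ZMod 2)
  map_one' := by
    apply Multiplicative.toAdd.injective
    funext i
    simp only [toAdd_one, toAdd_ofAdd, Pi.zero_apply, Int.cast_zero]
  map_mul' e f := by
    apply Multiplicative.toAdd.injective
    funext i
    simp only [toAdd_mul, toAdd_ofAdd, Pi.add_apply, Int.cast_add]

lemma rd_surj (r : ℕ) : Function.Surjective (rd r) := by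
  intro y
  refine ⟨Multiplicative.ofAdd fun i => ((y.toAdd i).val : ℤ), ?_⟩
  apply Multiplicative.toAdd.injective
  funext i
  change (((((y.toAdd i).val : ℤ)) : ZMod 2)) = y.toAdd i
  rw [Int.cast_natCast, ZMod.natCast_val, ZMod.cast_id]

lemma rd_ker (r : ℕ) (e : Multiplicative (Fin r → ℤ)) (h : rd r e = 1) : ∃ f, e = f ^ 2 := by
  have h1 : ∀ i, (2 : ℤ) ∣ e.toAdd i := by
    intro i
    have h2 := congrFun (congrArg Multiplicative.toAdd h) i
    exact (ZMod.intCast_zmod_eq_zero_iff_dvd _ 2).mp h2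
  choose f hf using h1
  refine ⟨Multiplicative.ofAdd f, ?_⟩
  apply Multiplicative.toAdd.injective
  funext i
  rw [toAdd_pow, toAdd_ofAdd, Pi.smul_apply, hf i, nsmul_eq_mul]
  rfl

/-- a finite commutative group with two elements of order dividing two -/
lemma card_sq (T : Type) [CommGroup T] [Finite T] (t : T) (ht : t ≠ 1)
    (h : ∀ x : T, x ^ 2 = 1 ↔ x = 1 ∨ x = t) :
    Nat.card (T ⧸ (powMonoidHom 2 : T →* T).range) = 2 := by
  have h1 : Nat.card (powMonoidHom 2 : T →* T).ker = 2 := by
    have h2 : ((powMonoidHom 2 : T →* T).ker : Set T) = {1, t} := by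
      ext x
      rw [SetLike.mem_coe, MonoidHom.mem_ker, powMonoidHom_apply, h]
      rfl
    have h3 : Nat.card (powMonoidHom 2 : T →* T).ker =
        ((powMonoidHom 2 : T →* T).ker : Set T).ncard := rfl
    rw [h3, h2, Set.ncard_pair ht.symm]
  have h2 := Subgroup.card_eq_card_quotient_mul_card_subgroup (powMonoidHom 2 : T →* T).ker
  have h3 := Subgroup.card_eq_card_quotient_mul_card_subgroup (powMonoidHom 2 : T →* T).range
  have h4 : Nat.card (T ⧸ (powMonoidHom 2 : T →* T).ker) =
      Nat.card (powMonoidHom 2 : T →* T).range :=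
    Nat.card_congr (QuotientGroup.quotientKerEquivRange (powMonoidHom 2 : T →* T)).toEquiv
  rw [h1, h4] at h2
  have h5 : 0 < Nat.card (powMonoidHom 2 : T →* T).range := Nat.card_pos
  rw [h2, mul_comm] at h3
  exact (Nat.eq_of_mul_eq_mul_right h5 h3).symm

lemma tors : Nat.card (torsion K ⧸ (powMonoidHom 2 : torsion K →* torsion K).range) = 2 := by
  have hneg : (-1 : (𝓞 K)ˣ) ∈ torsion K := by
    have h : IsOfFinOrder (-1 : (𝓞 K)ˣ) :=
      isOfFinOrder_iff_pow_eq_one.mpr ⟨2, by norm_num, by norm_num⟩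
    exact h
  have hne : (-1 : (𝓞 K)ˣ) ≠ 1 := by
    intro h
    have h1 := congrArg (fun u : (𝓞 K)ˣ => (u : 𝓞 K)) h
    simp only [Units.val_neg, Units.val_one] at h1
    have h2 : (2 : 𝓞 K) = 0 := by linear_combination -h1
    exact two_ne_zero h2
  refine card_sq (torsion K) ⟨-1, hneg⟩ ?_ ?_
  · intro h
    exact hne (congrArg Subtype.val h)
  · intro x
    constructor
    · intro hx
      have h1 : ((x : (𝓞 K)ˣ) : 𝓞 K) ^ 2 = 1 := by
        have h2 := congrArg (fun u : torsion K => ((u : (𝓞 K)ˣ) : 𝓞 K)) hx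
        simpa only [SubmonoidClass.coe_pow, Units.val_pow_eq_pow_val, OneMemClass.coe_one,
          Units.val_one] using h2
      have h4 : (((x : (𝓞 K)ˣ) : 𝓞 K) - 1) * (((x : (𝓞 K)ˣ) : 𝓞 K) + 1) = 0 := by
        linear_combination h1
      rcases mul_eq_zero.mp h4 with h3 | h3
      · left
        exact Subtype.ext (Units.ext (sub_eq_zero.mp h3))
      · right
        exact Subtype.ext (Units.ext (eq_neg_of_add_eq_zero_left h3))
    · rintro (rfl | rfl)
      · exact one_pow 2
      · apply Subtype.ext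
        change (-1 : (𝓞 K)ˣ) ^ 2 = 1
        norm_num

end UnkAux

open UnkAux in
/-- **UNK.** -/
theorem unk : UNKStmt := by
  classical
  intro K _ _
  set T := torsion K
  set Q := (T ⧸ (powMonoidHom 2 : T →* T).range) × Multiplicative (Fin (rank K) → ZMod 2)
  set Ψ : (𝓞 K)ˣ →* Q :=
    (MonoidHom.prodMap (QuotientGroup.mk' (powMonoidHom 2 : T →* T).range) (rd (rank K))).comp
      (eU K).symm.toMonoidHom with hΨ
  have hΨa : ∀ z, Ψ (eU K z) = (QuotientGroup.mk z.1, rd (rank K) z.2) := by
    intro z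
    rw [hΨ]
    change (MonoidHom.prodMap (QuotientGroup.mk' (powMonoidHom 2 : T →* T).range)
      (rd (rank K))) ((eU K).symm (eU K z)) = _
    rw [MulEquiv.symm_apply_apply]
    rfl
  have hsurj : Function.Surjective Ψ := by
    rintro ⟨a, b⟩
    obtain ⟨t, rfl⟩ := QuotientGroup.mk_surjective a
    obtain ⟨e, rfl⟩ := rd_surj _ b
    exact ⟨eU K (t, e), hΨa _⟩
  have hker : Ψ.ker = (powMonoidHom 2 : (𝓞 K)ˣ →* (𝓞 K)ˣ).range := by
    ext x
    obtain ⟨⟨t, e⟩, rfl⟩ := (eU K).surjective x
    rw [MonoidHom.mem_ker, hΨa, MonoidHom.mem_range]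
    constructor
    · intro h
      rw [Prod.mk_eq_one] at h
      obtain ⟨h1, h2⟩ := h
      obtain ⟨f, hf⟩ := rd_ker _ _ h2
      simp only at hf
      obtain ⟨s, hs⟩ := (QuotientGroup.eq_one_iff _).mp h1
      simp only [powMonoidHom_apply] at hs
      refine ⟨eU K (s, f), ?_⟩
      rw [powMonoidHom_apply, ← map_pow]
      congr 1
      exact Prod.ext hs hf.symm
    · rintro ⟨y, hy⟩
      obtain ⟨⟨s, f⟩, rfl⟩ := (eU K).surjective y
      rw [powMonoidHom_apply, ← map_pow] at hy
      have h1 := (eU K).injective hy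
      rw [Prod.pow_mk, Prod.mk.injEq] at h1
      rw [Prod.mk_eq_one]
      constructor
      · rw [QuotientGroup.eq_one_iff]
        exact ⟨s, h1.1⟩
      · rw [← h1.2, map_pow]
        apply Multiplicative.toAdd.injective
        funext i
        rw [toAdd_pow, toAdd_one, Pi.smul_apply, nsmul_eq_mul]
        have : ((2 : ℕ) : ZMod 2) = 0 := rfl
        rw [this, zero_mul]
        rfl
  have e1 : ((𝓞 K)ˣ ⧸ (powMonoidHom 2 : (𝓞 K)ˣ →* (𝓞 K)ˣ).range) ≃ Q :=
    ((QuotientGroup.quotientMulEquivOfEq hker.symm).trans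
      (QuotientGroup.quotientKerEquivOfSurjective Ψ hsurj)).toEquiv
  have hQ : Nat.card Q = 2 ^ (rank K + 1) := by
    rw [Nat.card_prod, tors K]
    have : Nat.card (Multiplicative (Fin (rank K) → ZMod 2)) = 2 ^ rank K := by
      rw [Nat.card_congr Multiplicative.toAdd, Nat.card_eq_fintype_card, Fintype.card_pi]
      simp only [ZMod.card, Finset.prod_const, Finset.card_univ, Fintype.card_fin]
    rw [this, pow_succ, mul_comm]
  have hfQ : Finite Q := by
    apply Nat.finite_of_card_ne_zero
    rw [hQ]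
    positivity
  exact ⟨Finite.of_equiv Q e1.symm, by rw [Nat.card_congr e1, hQ]⟩

end Pool.PRN
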